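import Pool.Agent.J4H12.MX.Stm

/-!
# Project MX (helper12), MP_c2f9c6_al: (FRA) the Frattini argument
-/

set_option autoImplicit false

universe u

namespace Pool.Agent.J4H63.MX

open Pool.Agent.J4H12.MX Subgroup

/-- a conjugate (by an element which normalises `D`) of a Sylow subgroup of `D` is a Sylow subgroup of `D` -/
theorem syl_conj {G : Type u} [Group G] [TopologicalSpace G] [IsTopologicalGroup G] {p : ℕ}
    {D P : Subgroup G} (l : G) (h1 : ∀ d ∈ D, l * d * l⁻¹ ∈ D) (h2 : ∀ d ∈ D, l⁻¹ * d * l ∈ D)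
    (hP : Syl p D P) : Syl p D (P.map (MulAut.conj l).toMonoidHom) := by
  have hmem : ∀ (A : Subgroup G) (x : G), x ∈ A.map (MulAut.conj l).toMonoidHom ↔ l⁻¹ * x * l ∈ A := by
    intro A x
    constructor
    · rintro ⟨a, ha, rfl⟩
      have : l⁻¹ * (MulAut.conj l).toMonoidHom a * l = a := by
        show l⁻¹ * (l * a * l⁻¹) * l = a
        group
      rw [this]
      exact ha
    · intro hx
      refine ⟨l⁻¹ * x * l, hx, ?_⟩
      show l * (l⁻¹ * x * l) * l⁻¹ = x
      group
  have hD : D.map (MulAut.conj l).toMonoidHom = D := by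
    ext x
    rw [hmem]
    constructor
    · intro h
      have := h1 _ h
      have e : l * (l⁻¹ * x * l) * l⁻¹ = x := by group
      rwa [e] at this
    · exact h2 x
  refine ⟨?_, ?_, ?_, ?_⟩
  · have e : ((P.map (MulAut.conj l).toMonoidHom : Subgroup G) : Set G) =
        (fun x => l⁻¹ * x * l) ⁻¹' (P : Set G) := by
      ext x
      exact hmem P x
    rw [e]
    exact hP.closed.preimage (by fun_prop)
  · rw [← hD]
    exact map_mono hP.le
  · intro x hx U hU
    obtain ⟨k, hk⟩ := hP.prop _ ((hmem P x).1 hx) U hU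
    refine ⟨k, ?_⟩
    have h3 := hU.1.conj_mem _ hk l
    have e : l * (l⁻¹ * x * l) ^ p ^ k * l⁻¹ = x ^ p ^ k := by
      have := (MulAut.conj l).toMonoidHom.map_pow (l⁻¹ * x * l) (p ^ k)
      have e1 : (MulAut.conj l).toMonoidHom (l⁻¹ * x * l) = x := by
        show l * (l⁻¹ * x * l) * l⁻¹ = x
        group
      rw [e1] at this
      exact this
    rwa [e] at h3
  · intro U hU
    have hUm : U.map (MulAut.conj l).toMonoidHom = U := by
      ext x
      rw [hmem]
      constructor
      · intro h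
        have := hU.1.conj_mem _ h l
        have e : l * (l⁻¹ * x * l) * l⁻¹ = x := by group
        rwa [e] at this
      · intro h
        have := hU.1.conj_mem _ h l⁻¹
        rwa [inv_inv] at this
    have e : (P.map (MulAut.conj l).toMonoidHom ⊔ U).relIndex D = (P ⊔ U).relIndex D := by
      conv_lhs => rw [← hUm, ← hD, ← Subgroup.map_sup]
      exact relIndex_map_map_of_injective _ _ (MulAut.conj l).injective
    rw [e]
    exact hP.idx U hU

theorem t_FRA (hC : S_CNJ.{u}) : S_FRA.{u} := by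
  intro G _ _ _ _ _ p L D P hp hL hD hDL hN hP l hl
  have h1 : ∀ d ∈ D, l * d * l⁻¹ ∈ D := fun d hd => hN l hl d hd
  have h2 : ∀ d ∈ D, l⁻¹ * d * l ∈ D := fun d hd => by
    have := hN l⁻¹ (L.inv_mem hl) d hd
    rwa [inv_inv] at this
  obtain ⟨d, hd, hk⟩ := hC G p D P _ hp hD hP (syl_conj l h1 h2 hP)
  refine ⟨d, hd, d⁻¹ * l, L.mul_mem (L.inv_mem (hDL hd)) hl, by group, fun x => ?_⟩
  have e : d⁻¹ * l * x * (d⁻¹ * l)⁻¹ = d⁻¹ * (l * x * l⁻¹) * d := by group
  rw [e, ← hk]
  constructor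
  · intro hx
    exact ⟨x, hx, rfl⟩
  · rintro ⟨y, hy, hyx⟩
    have : y = x := by
      have h3 : l * y * l⁻¹ = l * x * l⁻¹ := hyx
      exact mul_left_cancel (mul_right_cancel h3)
    exact this ▸ hy

end Pool.Agent.J4H63.MX
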