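import Pool.Agent.J4H12.MX.Stm

/-!
# Project MX (helper12), MP_c2f9c6_al: (SYL) Sylow subgroups exist
-/

set_option autoImplicit false

universe u

namespace Pool.Agent.J4H63.MX

open Pool.Agent.J4H12.MX Subgroup

variable {G : Type u} [Group G]

/-- the index of `T V` in `K`, for `T ≤ S ≤ K` -/
theorem rel_mul {T S K V : Subgroup G} (hV : V.Normal) (hTS : T ≤ S) (hSK : S ≤ K) :
    (T ⊔ V).relIndex K = (T ⊔ V).relIndex S * (S ⊔ V).relIndex K := by
  have e : ∀ A B : Subgroup G, (A ⊔ V).relIndex B =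
      (A.map (QuotientGroup.mk' V)).relIndex (B.map (QuotientGroup.mk' V)) := by
    intro A B
    rw [← relIndex_comap, comap_map_eq, QuotientGroup.ker_mk']
  rw [e, e, e]
  exact (relIndex_mul_relIndex _ _ _ (map_mono hTS) (map_mono hSK)).symm

variable [TopologicalSpace G] [IsTopologicalGroup G]

/-- a subgroup which contains an open subgroup is closed -/
theorem closed_of_open_le {U H : Subgroup G} (hU : IsOpen (U : Set G)) (h : U ≤ H) :
    IsClosed (H : Set G) :=
  Subgroup.isClosed_of_isOpen H (Subgroup.isOpen_mono h hU)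

/-- compactness: a product `S U`, `S` in a chain with intersection `S₀`, becomes `S₀ U` -/
theorem chain_stab [CompactSpace G] {c : Set (Subgroup G)} (hc : IsChain (· ≤ ·) c)
    (hne : c.Nonempty) (hcl : ∀ S ∈ c, IsClosed (S : Set G)) {U : Subgroup G}
    (hU : IsOpen (U : Set G)) : ∃ S ∈ c, S ≤ sInf c ⊔ U := by
  classical
  by_contra hcon
  push_neg at hcon
  have hO : IsOpen ((sInf c ⊔ U : Subgroup G) : Set G) := Subgroup.isOpen_mono le_sup_right hU
  haveI : Nonempty c := hne.to_subtype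
  have key : (⋂ i : c, ((i.1 : Subgroup G) : Set G) ∩ ((sInf c ⊔ U : Subgroup G) : Set G)ᶜ).Nonempty := by
    apply IsCompact.nonempty_iInter_of_directed_nonempty_isCompact_isClosed
    · intro i j
      rcases hc.total i.2 j.2 with h | h
      · exact ⟨i, subset_rfl, Set.inter_subset_inter_left _ h⟩
      · exact ⟨j, Set.inter_subset_inter_left _ h, subset_rfl⟩
    · intro i
      have := hcon i.1 i.2
      obtain ⟨x, hx, hx'⟩ := SetLike.not_le_iff_exists.1 this
      exact ⟨x, hx, hx'⟩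
    · intro i
      exact ((hcl i.1 i.2).inter hO.isClosed_compl).isCompact
    · intro i
      exact (hcl i.1 i.2).inter hO.isClosed_compl
  obtain ⟨x, hx⟩ := key
  have hx1 : x ∈ sInf c := by
    rw [Subgroup.mem_sInf]
    intro S hS
    exact (Set.mem_iInter.1 hx ⟨S, hS⟩).1
  obtain ⟨S, hS⟩ := hne
  exact (Set.mem_iInter.1 hx ⟨S, hS⟩).2 (le_sup_left (a := sInf c) (b := U) hx1)

theorem t_SYL : S_SYL.{u} := by
  classical
  intro G _ _ _ _ _ p K hp hK
  haveI : Fact p.Prime := ⟨hp⟩
  let 𝒮 : Set (Set G) := {s | ∃ H : Subgroup G, (H : Set G) = s ∧ IsClosed (H : Set G) ∧ H ≤ K ∧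
    ∀ U : Subgroup G, ON U → ¬ p ∣ (H ⊔ U).relIndex K}
  have hK' : (K : Set G) ∈ 𝒮 := by
    refine ⟨K, rfl, hK, le_rfl, fun U _ => ?_⟩
    rw [relIndex_eq_one.2 le_sup_left]
    exact hp.one_lt.ne' ∘ Nat.dvd_one.1
  obtain ⟨m, -, hm⟩ := zorn_superset_nonempty 𝒮 (by
    intro c hc hch hne
    let d : Set (Subgroup G) := {H | (H : Set G) ∈ c}
    have hd : ∀ H ∈ d, IsClosed (H : Set G) ∧ H ≤ K ∧
        ∀ U : Subgroup G, ON U → ¬ p ∣ (H ⊔ U).relIndex K := by
      intro H hH
      obtain ⟨H', e, h⟩ := hc hH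
      have : H' = H := SetLike.coe_injective e
      exact this ▸ h
    have hdne : d.Nonempty := by
      obtain ⟨s, hs⟩ := hne
      obtain ⟨H, e, -⟩ := hc hs
      exact ⟨H, by show (H : Set G) ∈ c; rw [e]; exact hs⟩
    have hdch : IsChain (· ≤ ·) d := by
      intro A hA B hB hAB
      exact hch hA hB (fun h => hAB (SetLike.coe_injective h))
    refine ⟨(sInf d : Subgroup G), ⟨sInf d, rfl, ?_, ?_, ?_⟩, ?_⟩
    · rw [Subgroup.coe_sInf]
      exact isClosed_biInter fun H hH => (hd H hH).1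
    · obtain ⟨H, hH⟩ := hdne
      exact (sInf_le hH).trans (hd H hH).2.1
    · intro U hU
      obtain ⟨S, hS, hle⟩ := chain_stab hdch hdne (fun S hS => (hd S hS).1) hU.2
      have e : sInf d ⊔ U = S ⊔ U :=
        le_antisymm (sup_le_sup_right (sInf_le hS) U) (sup_le hle le_sup_right)
      rw [e]
      exact (hd S hS).2.2 U hU
    · intro s hs
      obtain ⟨H, e, -⟩ := hc hs
      have : H ∈ d := by show (H : Set G) ∈ c; rw [e]; exact hs
      rw [← e]
      exact (sInf_le this : sInf d ≤ H)) _ hK'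
  obtain ⟨⟨S, rfl, hScl, hSK, hSp⟩, hmin⟩ := hm
  refine ⟨S, hScl, hSK, ?_, hSp⟩
  intro x hx U hU
  haveI := hU.1
  haveI : Finite (G ⧸ U) := Subgroup.quotient_finite_of_isOpen U hU.2
  let π := QuotientGroup.mk' U
  obtain ⟨P⟩ : Nonempty (Sylow p (S.map π)) := inferInstance
  let P' : Subgroup (G ⧸ U) := P.1.map (S.map π).subtype
  let T : Subgroup G := S ⊓ P'.comap π
  have hTcl : IsClosed (T : Set G) := by
    have : IsClosed ((P'.comap π : Subgroup G) : Set G) := by
      apply closed_of_open_le hU.2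
      intro u hu
      have : π u = 1 := (QuotientGroup.eq_one_iff u).2 hu
      show π u ∈ P'
      rw [this]
      exact one_mem _
    exact hScl.inter this
  have hTS : T.relIndex S = P.1.index := by
    show (S ⊓ P'.comap π).relIndex S = _
    rw [inf_relIndex_left, relIndex_comap]
    show (P'.subgroupOf (S.map π)).index = _
    congr 1
    exact comap_map_eq_self_of_injective (Subgroup.subtype_injective _) P.1
  have hT : (T : Set G) ∈ 𝒮 := by
    refine ⟨T, rfl, hTcl, inf_le_left.trans hSK, fun V hV hdiv => ?_⟩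
    rw [rel_mul hV.1 (inf_le_left : T ≤ S) hSK] at hdiv
    rcases hp.dvd_mul.1 hdiv with h | h
    · have h2 := h.trans (relIndex_dvd_of_le_left S (le_sup_left : T ≤ T ⊔ V))
      rw [hTS] at h2
      exact P.not_dvd_index h2
    · exact hSp V hV h
  have hST : S ≤ T := hmin hT (inf_le_left : T ≤ S)
  have hxP : π x ∈ P' := (hST hx).2
  obtain ⟨y, hy, hyx⟩ := hxP
  obtain ⟨k, hk⟩ := P.2 ⟨y, hy⟩
  refine ⟨k, ?_⟩
  have h1 : π (x ^ p ^ k) = 1 := by
    rw [map_pow, ← hyx]
    have := congrArg (fun z : P.1 => ((z : S.map π) : G ⧸ U)) hk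
    simpa using this
  exact (QuotientGroup.eq_one_iff _).1 h1

end Pool.Agent.J4H63.MX
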